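import Mathlib
import Pool.Agent.H50.Lang.Cases

/-!
# Complete intersections with a reflection that are not hyperbolic

Let `X ⊆ P^N` be the common zero set of forms `G_1, …, G_c` of degrees `e_1, …, e_c ≥ 1`, with
`c < N`, that are invariant under `x_N ↦ ζ x_N`, where `ζ` is a primitive `r`-th root of unity,
`r ≥ 2`.  If `X` is a smooth complete intersection, then `K_X = O(∑ e_j - N - 1)`.

* If `∑ (e_j + 1) < 2 N` (`K_X ≤ O(dim X - 2)`), then `X` contains a rational curve.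
* If `3 ∣ r` or `4 ∣ r`, and `∑ (e_j + 1) ≤ 2 N` (`K_X ≤ O(dim X - 1)`), then `X` contains a curve
  of genus at most one.
* In both cases there is a non-constant entire curve in `X`.
-/

set_option autoImplicit false

open Filter Topology

namespace Pool.Agent.Results.MP_c6ff8d_ag.ReflectionCurves

open MvPolynomial Pool.Agent.H50.Lang Pool.Agent.H84 Pool.Agent.H86.Refl

/-- Rational curves. -/
lemma rational {N c r : ℕ} (hr : 2 ≤ r) {e : Fin c → ℕ} (he : ∀ j, 1 ≤ e j)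
    {G : Fin c → MvPolynomial (Fin (N + 1)) ℂ} (hG : ∀ j, (G j).IsHomogeneous (e j))
    (hdvd : ∀ j, ∀ d ∈ (G j).support, r ∣ d (Fin.last N)) (h : ∑ j, (e j + 1) < 2 * N) :
    HasRationalCurve G := by
  obtain ⟨k, rfl⟩ : ∃ k, r = k + 2 := ⟨r - 2, by omega⟩
  have hF : ∀ j, (lower (k + 2) (G j)).IsWeightedHomogeneous (wt N (k + 2)) (e j) :=
    fun j => isWeightedHomogeneous_lower (hdvd j) (hG j)
  have hGF : ∀ (j : Fin c) (x : Fin N → ℂ) (w : ℂ), eval (Fin.snoc x w : Fin (N + 1) → ℂ) (G j) =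
      eval (Fin.snoc x (w ^ (k + 2)) : Fin (N + 1) → ℂ) (lower (k + 2) (G j)) :=
    hGF_of_lower dvd_rfl hdvd
  by_cases hc : ∃ j, eval (Fin.snoc 0 1 : Fin (N + 1) → ℂ) (lower (k + 2) (G j)) ≠ 0
  · obtain ⟨m, rfl⟩ : ∃ m, N = m + 2 := by
      obtain ⟨j, -⟩ := hc
      have h1 : e j + 1 ≤ ∑ j, (e j + 1) :=
        Finset.single_le_sum (f := fun j => e j + 1) (fun _ _ => Nat.zero_le _)
          (Finset.mem_univ j)
      have := he j
      exact ⟨N - 2, by omega⟩
    have hF' : ∀ j, (lower (k + 2) (G j)).IsWeightedHomogeneous (wt (m + 2) (1 + (k + 1)))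
        (e j) := by
      intro j
      rw [show 1 + (k + 1) = k + 2 by ring]
      exact hF j
    obtain ⟨x, v, g, l, b, hind, -, hl0, -, hl, hz⟩ := exists_curve (γ := 1) (p := k + 1)
      (by omega) he (by omega) hF' hc
    exact rational_of_curve hGF hind hl0 hl hz
  · push Not at hc
    obtain ⟨x, hx, hxz⟩ := exists_line_centre (r := k + 2) (by omega) he hF hc (by
      have h1 : ∑ j, 2 * ((e j + (k + 2) - 1) / (k + 2)) ≤ ∑ j, (e j + 1) := by
        apply Finset.sum_le_sum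
        intro j _
        have h2 := he j
        have h3 := Nat.div_mul_le_self (e j + (k + 2) - 1) (k + 2)
        rcases Nat.lt_or_ge ((e j + (k + 2) - 1) / (k + 2)) 2 with h4 | h4
        · omega
        · set q := (e j + (k + 2) - 1) / (k + 2)
          have h5 : q * 2 + k * q = q * (k + 2) := by ring
          have h6 : k * 2 ≤ k * q := Nat.mul_le_mul_left k h4
          omega
      rw [← Finset.mul_sum] at h1
      omega)
    exact rational_of_centre hGF hx hxz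

/-- **Theorem.**  Let `G_1, …, G_c` be forms of degrees `e_1, …, e_c ≥ 1` in the variables
`x_0, …, x_N`, `c < N`, that are invariant under the reflection `x_N ↦ ζ x_N`, where `ζ` is a
primitive `r`-th root of unity, `r ≥ 2`, and let `X = {G_1 = … = G_c = 0} ⊆ P^N`.  Suppose that
`∑ (e_j + 1) < 2 N`, or that `∑ (e_j + 1) ≤ 2 N` and `3 ∣ r` or `4 ∣ r`.  Then `X` contains the image
of a non-constant map from a curve `y ^ p = g(z)`, where `p = 1`, or `p = 2`, `deg g ≤ 4`, or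
`p = 3`, `deg g ≤ 3`, and `p = 1` if `∑ (e_j + 1) < 2 N`; moreover, `X` is not (Brody)
hyperbolic. -/
theorem result (N c r : ℕ) (hr : 2 ≤ r) (hcN : c < N) (e : Fin c → ℕ) (he : ∀ j, 1 ≤ e j)
    (G : Fin c → MvPolynomial (Fin (N + 1)) ℂ) (hG : ∀ j, (G j).IsHomogeneous (e j))
    (ζ : ℂ) (hζ : IsPrimitiveRoot ζ r)
    (hinv : ∀ (j : Fin c) (x : Fin (N + 1) → ℂ),
      eval (Function.update x (Fin.last N) (ζ * x (Fin.last N))) (G j) = eval x (G j))
    (h : ∑ j, (e j + 1) < 2 * N ∨ ((3 ∣ r ∨ 4 ∣ r) ∧ ∑ j, (e j + 1) ≤ 2 * N)) :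
    (∃ p b : ℕ, (p = 1 ∨ (∑ j, (e j + 1) = 2 * N ∧ ((p = 2 ∧ b = 4) ∨ (p = 3 ∧ b = 3)))) ∧
      HasCurve p b G) ∧ ¬ IsBrodyHyperbolic (projectiveSet G) := by
  have hdvd : ∀ j, ∀ d ∈ (G j).support, r ∣ d (Fin.last N) :=
    fun j => dvd_of_invariant hζ (hinv j)
  by_cases hlt : ∑ j, (e j + 1) < 2 * N
  · have h1 := rational hr he hG hdvd hlt
    exact ⟨⟨1, 0, Or.inl rfl, h1.hasCurve⟩, not_hyperbolic_of_rational hG h1⟩
  obtain ⟨h34, hs⟩ : (3 ∣ r ∨ 4 ∣ r) ∧ ∑ j, (e j + 1) ≤ 2 * N := h.resolve_left hlt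
  have hs' : ∑ j, (e j + 1) = 2 * N := by omega
  have key : ∀ ρ : ℕ, 3 ≤ ρ → ρ ∣ r →
      (∀ j, eval (Fin.snoc 0 1 : Fin (N + 1) → ℂ) (lower ρ (G j)) = 0) →
      HasRationalCurve G := by
    intro ρ hρ hρr hc
    have hF : ∀ j, (lower ρ (G j)).IsWeightedHomogeneous (wt N ρ) (e j) :=
      fun j => isWeightedHomogeneous_lower (fun d hd => hρr.trans (hdvd j d hd)) (hG j)
    have hGF := hGF_of_lower hρr hdvd
    obtain ⟨x, hx, hxz⟩ := exists_line_centre (r := ρ) (by omega) he hF hc (by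
      have h2 : ∀ j, 2 * ((e j + ρ - 1) / ρ) ≤ e j + 1 := by
        intro j
        have h2 := he j
        have h3 := Nat.div_mul_le_self (e j + ρ - 1) ρ
        rcases Nat.lt_or_ge ((e j + ρ - 1) / ρ) 2 with h4 | h4
        · omega
        · obtain ⟨k, rfl⟩ : ∃ k, ρ = k + 3 := ⟨ρ - 3, by omega⟩
          set q := (e j + (k + 3) - 1) / (k + 3)
          have h5 : q * 3 + k * q = q * (k + 3) := by ring
          have h6 : k * 2 ≤ k * q := Nat.mul_le_mul_left k h4
          omega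
      by_cases hall : ∀ j, e j = 1
      · have h3 : ∑ j, (e j + ρ - 1) / ρ = ∑ _j : Fin c, 1 := by
          refine Finset.sum_congr rfl fun j _ => ?_
          rw [hall j, show 1 + ρ - 1 = ρ by omega]
          exact Nat.div_self (by omega)
        rw [h3]
        simpa using hcN
      · push Not at hall
        obtain ⟨j₁, hj₁⟩ := hall
        have h3 : ∑ j, 2 * ((e j + ρ - 1) / ρ) < ∑ j, (e j + 1) := by
          refine Finset.sum_lt_sum (fun j _ => h2 j) ⟨j₁, Finset.mem_univ _, ?_⟩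
          have h4 := he j₁
          have h5 := Nat.div_mul_le_self (e j₁ + ρ - 1) ρ
          rcases Nat.lt_or_ge ((e j₁ + ρ - 1) / ρ) 2 with h6 | h6
          · omega
          · obtain ⟨k, rfl⟩ : ∃ k, ρ = k + 3 := ⟨ρ - 3, by omega⟩
            set q := (e j₁ + (k + 3) - 1) / (k + 3)
            have h7 : q * 3 + k * q = q * (k + 3) := by ring
            have h8 : k * 2 ≤ k * q := Nat.mul_le_mul_left k h6
            omega
        rw [← Finset.mul_sum] at h3
        omega)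
    exact rational_of_centre hGF hx hxz
  have hfin : ∀ {p b : ℕ}, ((p = 2 ∧ b = 4) ∨ (p = 3 ∧ b = 3)) →
      HasCurveW p b G ∧ ¬ IsBrodyHyperbolic (projectiveSet G) →
      (∃ p b : ℕ, (p = 1 ∨ (∑ j, (e j + 1) = 2 * N ∧ ((p = 2 ∧ b = 4) ∨ (p = 3 ∧ b = 3)))) ∧
      HasCurve p b G) ∧ ¬ IsBrodyHyperbolic (projectiveSet G) :=
    fun hpb h => ⟨⟨_, _, Or.inr ⟨hs', hpb⟩, h.1.hasCurve⟩, h.2⟩
  have hcen : HasRationalCurve G →
      (∃ p b : ℕ, (p = 1 ∨ (∑ j, (e j + 1) = 2 * N ∧ ((p = 2 ∧ b = 4) ∨ (p = 3 ∧ b = 3)))) ∧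
      HasCurve p b G) ∧ ¬ IsBrodyHyperbolic (projectiveSet G) :=
    fun h => ⟨⟨1, 0, Or.inl rfl, h.hasCurve⟩, not_hyperbolic_of_rational hG h⟩
  rcases h34 with h3 | h4
  · by_cases hc : ∃ j, eval (Fin.snoc 0 1 : Fin (N + 1) → ℂ) (lower 3 (G j)) ≠ 0
    · obtain ⟨m, rfl⟩ : ∃ m, N = m + 2 := by
        obtain ⟨j, -⟩ := hc
        have := j.2
        exact ⟨N - 2, by omega⟩
      have hF : ∀ j, (lower 3 (G j)).IsWeightedHomogeneous (wt (m + 2) 3) (e j) :=
        fun j => isWeightedHomogeneous_lower (fun d hd => h3.trans (hdvd j d hd)) (hG j)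
      obtain ⟨x, v, g, l, b, hind, -, -, hg, hl, hz⟩ := exists_curve (γ := 2) (p := 1)
        (by omega) he (by omega) hF hc
      exact hfin (Or.inr ⟨rfl, rfl⟩)
        (cubic_of_curve hG hF (hGF_of_lower h3 hdvd) hind hg hl hz)
    · push Not at hc
      exact hcen (key 3 le_rfl h3 hc)
  · by_cases hc : ∃ j, eval (Fin.snoc 0 1 : Fin (N + 1) → ℂ) (lower 4 (G j)) ≠ 0
    · obtain ⟨m, rfl⟩ : ∃ m, N = m + 2 := by
        obtain ⟨j, -⟩ := hc
        have := j.2
        exact ⟨N - 2, by omega⟩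
      have hF : ∀ j, (lower 4 (G j)).IsWeightedHomogeneous (wt (m + 2) 4) (e j) :=
        fun j => isWeightedHomogeneous_lower (fun d hd => h4.trans (hdvd j d hd)) (hG j)
      have h24 : 2 ∣ r := (by norm_num : 2 ∣ 4).trans h4
      have hF' : ∀ j, (lower 2 (G j)).IsWeightedHomogeneous (wt (m + 2) 2) (e j) :=
        fun j => isWeightedHomogeneous_lower (fun d hd => h24.trans (hdvd j d hd)) (hG j)
      obtain ⟨x, v, g, l, b, hind, -, -, hg, -, hz⟩ := exists_curve (γ := 2) (p := 2)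
        (by omega) he (by omega) hF hc
      exact hfin (Or.inl ⟨rfl, rfl⟩)
        (quartic_of_curve hG hF' (hGF_of_lower h4 hdvd) (hGF_of_lower h24 hdvd) hind hg hz)
    · push Not at hc
      exact hcen (key 4 (by norm_num) h4 hc)

end Pool.Agent.Results.MP_c6ff8d_ag.ReflectionCurves
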