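import Pool.Agent.H56.Ramsey.Top
import Pool.Agent.H50.Ramsey.Rows

/-!
# Ramsey bounds for unbalanced colourings

A colouring of the edges of a complete graph with two colours is given by the simple graph `G` of
the edges of one colour.  We bound the number of vertices of a colouring without a monochromatic
clique of size `k` in which one colour has density at most `p`.
-/

open Finset Filter

namespace Pool.Agent.Results.MP_28724c_co.UnbalancedColourings

/-- `SparseRamsey p b`: for some `δ > 0` and all large `k`, every graph on `N ≥ b ^ k` vertices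
with edge density `2 e(G) / N ^ 2 ≤ p + δ` contains a clique of size `k` or an independent set of
size `k`. -/
def SparseRamsey (p b : ℝ) : Prop :=
  ∃ δ : ℝ, 0 < δ ∧ ∀ᶠ k : ℕ in atTop,
    ∀ (V : Type) [Fintype V] [DecidableEq V] (G : SimpleGraph V) [DecidableRel G.Adj],
      b ^ k ≤ (Fintype.card V : ℝ) →
      (G.edgeDensity univ univ : ℝ) ≤ p + δ →
      (∃ S : Finset V, G.IsNClique k S) ∨ (∃ S : Finset V, G.IsNIndepSet k S)

lemma sum_of_density {V : Type} [Fintype V] [DecidableEq V] {G : SimpleGraph V}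
    [DecidableRel G.Adj] {β : ℝ} (h : (G.edgeDensity univ univ : ℝ) ≤ β) :
    ∑ x, ∑ y, Pool.Agent.H92.ind G x y ≤ β * (Fintype.card V : ℝ) * Fintype.card V := by
  have h1 : ((G.interedges univ univ).card : ℝ) = ∑ x, ∑ y, Pool.Agent.H92.ind G x y := by
    rw [SimpleGraph.interedges_def, Finset.card_filter, Finset.sum_product]
    push_cast
    rfl
  rw [← h1]
  rcases isEmpty_or_nonempty V with hV | hV
  · have : (univ : Finset V) = ∅ := univ_eq_empty
    rw [SimpleGraph.interedges_def]
    simp
  · have h0 : (0 : ℝ) < Fintype.card V := by exact_mod_cast Fintype.card_pos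
    rw [SimpleGraph.edgeDensity_def] at h
    push_cast at h
    rw [card_univ, div_le_iff₀ (by positivity)] at h
    linarith

lemma sparseRamsey_of {p b : ℝ} (h : Pool.Agent.H50.Ramsey.SparseGood p b) :
    SparseRamsey p b := by
  obtain ⟨δ, hδ, k0, hk0⟩ := h
  refine ⟨δ, hδ, ?_⟩
  filter_upwards [eventually_ge_atTop k0] with k hk V _ _ G _ hN hd
  rcases hk0 k hk V G hN (sum_of_density hd) with h | ⟨S, hS⟩
  · exact Or.inl h
  · exact Or.inr ⟨S, (SimpleGraph.isNClique_compl _).1 hS⟩

/-- The pairs `(p, b)` of the main theorem. -/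
noncomputable def table : List (ℝ × ℝ) :=
  [(0.02, 1.216), (0.044, 1.413), (0.05, 1.461), (0.1, 1.846), (0.15, 2.208), (0.2, 2.542),
    (0.25, 2.838), (0.3, 2.929), (0.35, 3.033), (0.4, 3.152), (0.45, 3.291), (0.49, 3.42)]

lemma table_eq : Pool.Agent.H50.Ramsey.rowsB.map
      (fun d => (Pool.Agent.H56.Ramsey.R d.p, Pool.Agent.H56.Ramsey.R d.b)) ++
    Pool.Agent.H50.Ramsey.rowsA.map
      (fun d => (Pool.Agent.H56.Ramsey.R d.p, Pool.Agent.H56.Ramsey.R d.b)) = table := by
  unfold Pool.Agent.H50.Ramsey.rowsA Pool.Agent.H50.Ramsey.rowsB table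
    Pool.Agent.H56.Ramsey.R Pool.Agent.H56.Ramsey.SC
  norm_num

theorem sparseRamsey_table : ∀ x ∈ table, SparseRamsey x.1 x.2 := by
  intro x hx
  rw [← table_eq, List.mem_append, List.mem_map, List.mem_map] at hx
  rcases hx with ⟨d, hd, rfl⟩ | ⟨d, hd, rfl⟩
  · have h := Pool.Agent.H50.Ramsey.rowsB_ok
    rw [List.all_eq_true] at h
    exact sparseRamsey_of (Pool.Agent.H50.Ramsey.sparse_of_chkB Pool.Agent.H56.Ramsey.t1I
      Pool.Agent.H95.Ramsey.fam_ok (h d hd))
  · have h := Pool.Agent.H50.Ramsey.rowsA_ok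
    rw [List.all_eq_true] at h
    exact sparseRamsey_of (Pool.Agent.H50.Ramsey.sparse_of_chkA Pool.Agent.H56.Ramsey.t1I
      Pool.Agent.H95.Ramsey.fam_ok (h d hd))

/-- A closed form valid for all densities (weaker than the table for the densities there):
the bound `4 ^ (h(p) k)`, where `h` is the binary entropy; for `p = 1 / 2` this is the bound of
Erdős and Szekeres. -/
theorem sparseRamsey_entropy {p b : ℝ} (hp : 0 < p) (hp2 : p ≤ 1 / 2)
    (hb : Real.exp (2 * Real.binEntropy p) < b) : SparseRamsey p b := by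
  have hq : 0 < 1 - p := by linarith
  have hb0 : 0 < b := lt_trans (Real.exp_pos _) hb
  have hgood : Pool.Agent.H92.Good (-Real.log (1 - p)) (-Real.log p) := by
    intro ε hε
    refine ⟨1, one_pos, fun V _ G X k l hR hB => ?_⟩
    have h1 := Pool.Agent.H92.D.es_bound (u := -Real.log (1 - p)) (v := -Real.log p)
      (by have := Real.log_nonpos hq.le (by linarith); linarith)
      (by have := Real.log_nonpos hp.le (by linarith); linarith)
      (by rw [neg_neg, neg_neg, Real.exp_log hq, Real.exp_log hp]; linarith)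
      G (k + l) k l X rfl hR hB
    have h2 : Real.exp (k * -Real.log (1 - p) + l * -Real.log p)
        ≤ Real.exp (ε * (k + l) + k * -Real.log (1 - p) + l * -Real.log p) := by
      apply Real.exp_le_exp.2
      have : 0 ≤ ε * ((k : ℝ) + l) := by positivity
      linarith
    linarith
  set l : ℝ := 2 * (Real.log (1 - p) - Real.log p) with hl
  have hl0 : 0 ≤ l := by
    have := Real.log_le_log hp (by linarith : p ≤ 1 - p)
    rw [hl]; linarith
  have hx : Real.exp (-l) = p ^ 2 / (1 - p) ^ 2 := by
    have h1 : -l = (2 : ℕ) * (Real.log p - Real.log (1 - p)) := by rw [hl]; push_cast; ring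
    rw [h1, Real.exp_nat_mul, Real.exp_sub, Real.exp_log hp, Real.exp_log hq, div_pow]
  have hW : 1 - Real.exp (-l) + Real.exp (-l) * Real.exp (-Real.log p) = (1 - p)⁻¹ := by
    rw [hx, Real.exp_neg, Real.exp_log hp]
    field_simp
    ring
  have hc : -Real.log (1 - p) + Real.log (1 - Real.exp (-l)
      + Real.exp (-l) * Real.exp (-Real.log p)) + p * l < Real.log b := by
    rw [hW, Real.log_inv]
    have h1 := Real.log_lt_log (Real.exp_pos _) hb
    rw [Real.log_exp, Real.binEntropy_eq_negMulLog_add_negMulLog_one_sub] at h1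
    unfold Real.negMulLog at h1
    rw [hl]
    nlinarith
  obtain ⟨δ, hδ, k0, hk0⟩ := Pool.Agent.H50.Ramsey.sparse_of_good hgood
    (by have := Real.log_nonpos hp.le (by linarith); linarith)
    (by have := Real.log_nonpos hq.le (by linarith); linarith) hp hl0 hc
  refine sparseRamsey_of ⟨δ, hδ, k0, fun k hk V _ _ G _ hN hd => hk0 k hk V G ?_ hd⟩
  rw [mul_comm, Real.exp_nat_mul, Real.exp_log hb0]
  exact hN

/-- Consequence: in a colouring without monochromatic clique of size `k`, both colours have
density more than `p` inside every vertex set with at least `b ^ k` elements. -/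
theorem SparseRamsey.balanced {p b : ℝ} (h : SparseRamsey p b) (hb : 0 < b) :
    ∃ δ : ℝ, 0 < δ ∧ ∀ᶠ k : ℕ in atTop,
      ∀ (V : Type) [Fintype V] [DecidableEq V] (G : SimpleGraph V) [DecidableRel G.Adj],
        (∀ S : Finset V, ¬ G.IsNClique k S) → (∀ S : Finset V, ¬ G.IsNIndepSet k S) →
        ∀ Y : Finset V, b ^ k ≤ (Y.card : ℝ) →
          p + δ < (G.edgeDensity Y Y : ℝ) ∧ (G.edgeDensity Y Y : ℝ) < 1 - p - δ := by
  obtain ⟨δ, hδ, hev⟩ := h
  refine ⟨δ, hδ, hev.mono fun k hk => ?_⟩
  -- the lower bound for an arbitrary graph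
  have key : ∀ (V : Type) [Fintype V] [DecidableEq V] (G : SimpleGraph V) [DecidableRel G.Adj],
      (∀ S : Finset V, ¬ G.IsNClique k S) → (∀ S : Finset V, ¬ G.IsNIndepSet k S) →
      ∀ Y : Finset V, b ^ k ≤ (Y.card : ℝ) → p + δ < (G.edgeDensity Y Y : ℝ) := by
    intro V _ _ G _ hc hi Y hY
    by_contra hle
    push Not at hle
    let e : Y ↪ V := ⟨Subtype.val, Subtype.val_injective⟩
    have hcard : Fintype.card Y = Y.card := Fintype.card_coe Y
    have hdens : ((G.comap e).edgeDensity univ univ : ℝ) = (G.edgeDensity Y Y : ℝ) := by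
      rw [SimpleGraph.edgeDensity_def, SimpleGraph.edgeDensity_def, card_univ, hcard]
      have h1 : ((G.comap e).interedges univ univ).card = (G.interedges Y Y).card := by
        refine Finset.card_bij (fun x _ => (x.1.1, x.2.1)) ?_ ?_ ?_
        · intro x hx
          rw [SimpleGraph.mem_interedges_iff] at hx ⊢
          exact ⟨x.1.2, x.2.2, hx.2.2⟩
        · rintro ⟨⟨a, ha⟩, ⟨a', ha'⟩⟩ _ ⟨⟨c, hc⟩, ⟨c', hc'⟩⟩ _ h
          simp only [Prod.mk.injEq] at h
          obtain ⟨h1, h2⟩ := h
          subst h1 h2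
          rfl
        · rintro ⟨a, c⟩ hx
          rw [SimpleGraph.mem_interedges_iff] at hx
          refine ⟨(⟨a, hx.1⟩, ⟨c, hx.2.1⟩), ?_, rfl⟩
          rw [SimpleGraph.mem_interedges_iff]
          exact ⟨mem_univ _, mem_univ _, hx.2.2⟩
      rw [h1]
    rcases hk Y (G.comap e) (by rw [hcard]; exact hY) (by rw [hdens]; exact hle) with
      ⟨S, hS⟩ | ⟨S, hS⟩
    · refine hc (S.map e) ⟨?_, ?_⟩
      · intro x hx y hy hxy
        rw [mem_coe, Finset.mem_map] at hx hy
        obtain ⟨x', hx', rfl⟩ := hx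
        obtain ⟨y', hy', rfl⟩ := hy
        exact hS.isClique hx' hy' (fun h => hxy (by rw [h]))
      · rw [card_map]; exact hS.card_eq
    · refine hi (S.map e) ⟨?_, ?_⟩
      · intro x hx y hy hxy hadj
        rw [mem_coe, Finset.mem_map] at hx hy
        obtain ⟨x', hx', rfl⟩ := hx
        obtain ⟨y', hy', rfl⟩ := hy
        exact hS.isIndepSet hx' hy' (fun h => hxy (by rw [h])) hadj
      · rw [card_map]; exact hS.card_eq
  intro V _ _ G _ hc hi Y hY
  refine ⟨key V G hc hi Y hY, ?_⟩
  have h1 := key V Gᶜ (fun S hS => hi S ((SimpleGraph.isNClique_compl _).1 hS))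
    (fun S hS => hc S ((SimpleGraph.isNIndepSet_compl _).1 hS)) Y hY
  have hY0 : (0 : ℝ) < Y.card := lt_of_lt_of_le (by positivity) hY
  have h2 : ((Gᶜ).edgeDensity Y Y : ℝ) + (G.edgeDensity Y Y : ℝ) ≤ 1 := by
    rw [SimpleGraph.edgeDensity_def, SimpleGraph.edgeDensity_def]
    push_cast
    rw [← add_div, div_le_one (by positivity)]
    have h3 : (Gᶜ.interedges Y Y).card + (G.interedges Y Y).card ≤ (Y ×ˢ Y).card := by
      rw [← card_union_of_disjoint]
      · apply card_le_card
        intro x hx
        rw [mem_union, SimpleGraph.mem_interedges_iff, SimpleGraph.mem_interedges_iff] at hx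
        rw [mem_product]
        rcases hx with hx | hx <;> exact ⟨hx.1, hx.2.1⟩
      · rw [Finset.disjoint_left]
        intro x hx hx'
        rw [SimpleGraph.mem_interedges_iff] at hx hx'
        exact ((SimpleGraph.compl_adj _ _ _).1 hx.2.2).2 hx'.2.2
    rw [card_product] at h3
    exact_mod_cast h3
  linarith

/-- **Main theorem.** For the twelve pairs `(p, b)` of `table` (for example `(0.4, 3.152)`,
`(0.2, 2.542)`, `(0.1, 1.846)`, `(0.044, 1.413)`) there is `δ > 0` such that for all large `k`
every graph on `N ≥ b ^ k` vertices with edge density at most `p + δ` has a clique or an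
independent set of size `k`. -/
theorem result : ∀ x ∈ table, SparseRamsey x.1 x.2 := sparseRamsey_table

end Pool.Agent.Results.MP_28724c_co.UnbalancedColourings
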